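import Pool.Agent.ETC.Base

set_option autoImplicit false

/-! # Elementary Type Conjecture: finiteness modules (FIN and FG). Author: helper26. -/

namespace Pool.Agent.Helper26.ET

open Pool.Agent.ETC

section abs

variable {G : Type} [CommGroup G]

/-- iterated preimages -/
def Ak (H : Subgroup G) (φ : G →* G) : ℕ → Subgroup G
  | 0 => H
  | (k + 1) => (Ak H φ k).comap φ

theorem mem_Ak {H : Subgroup G} {φ : G →* G} {k : ℕ} {x : G} : x ∈ Ak H φ k ↔ φ^[k] x ∈ H := by
  induction k generalizing x with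
  | zero => rfl
  | succ k ih =>
    rw [Function.iterate_succ_apply, ← ih]
    rfl

theorem index_of_nilp {H : Subgroup G} {φ : G →* G} (h1 : H.relIndex (H.comap φ) ≠ 0)
    {n : ℕ} (hn : ∀ x : G, φ^[n] x ∈ H) : H.index ≠ 0 := by
  have key : ∀ k, (Ak H φ k).relIndex (Ak H φ (k + 1)) ≠ 0 := by
    intro k
    induction k with
    | zero => exact h1
    | succ k ih =>
      intro h
      apply ih
      have h2 : (Ak H φ k).relIndex ((Ak H φ (k + 2)).map φ) = 0 := by
        rw [← Subgroup.relIndex_comap]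
        exact h
      exact Subgroup.relIndex_eq_zero_of_le_right (Subgroup.map_comap_le _ _) h2
  have key2 : ∀ k, H.relIndex (Ak H φ k) ≠ 0 := by
    intro k
    induction k with
    | zero => rw [Ak, Subgroup.relIndex_self]; exact one_ne_zero
    | succ k ih => exact Subgroup.relIndex_ne_zero_trans ih (key k)
  have h3 : Ak H φ n = ⊤ := by
    ext x
    simp only [mem_Ak, Subgroup.mem_top, iff_true]
    exact hn x
  have h4 := key2 n
  rwa [h3, Subgroup.relIndex_top_right] at h4

/-- a subgroup is of finite index if the cosets are separated by a map into a finite set -/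
theorem index_of_sep {A : Type} [CommGroup A] (B : Subgroup A) {X : Type} [Finite X] (f : A → X)
    (h : ∀ x y : A, f x = f y → x / y ∈ B) : B.index ≠ 0 := by
  have hfin : Finite (A ⧸ B) := by
    refine Finite.of_injective (fun q : A ⧸ B => f q.out) ?_
    intro q q' hqq
    have h1 := h _ _ hqq
    rw [← QuotientGroup.out_eq' q, ← QuotientGroup.out_eq' q', QuotientGroup.eq]
    have h2 : (Quotient.out q)⁻¹ * Quotient.out q' = (Quotient.out q / Quotient.out q')⁻¹ := by
      rw [inv_div, div_eq_mul_inv, mul_comm]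
    rw [h2]
    exact B.inv_mem h1
  exact Subgroup.index_ne_zero_of_finite

end abs

/-- `(S - 1)^p` is divisible by `p` -/
theorem pow_sub_one {R : Type} [Ring R] {p : ℕ} (hp : p.Prime) {S : R} (hS : S ^ p = 1) :
    ∃ r : R, (S - 1) ^ p = p * r := by
  have hc : Commute S (-1 : R) := (Commute.neg_one_right S)
  obtain ⟨r, hr⟩ := hc.exists_add_pow_prime_eq hp
  rw [← sub_eq_add_neg, hS] at hr
  rcases hp.eq_two_or_odd' with h2 | hodd
  · refine ⟨1 + S * (-1) * r, ?_⟩
    rw [hr, h2]
    push_cast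
    noncomm_ring
  · refine ⟨S * (-1) * r, ?_⟩
    rw [hr, hodd.neg_one_pow]
    noncomm_ring

theorem t_FIN : S_FIN := by
  intro p _ F E _ _ _ _ _ hζ' hrank hF
  obtain ⟨ζ, hζ⟩ := hζ'
  classical
  have hp : p.Prime := Fact.out
  have hcard : Nat.card (E ≃ₐ[F] E) = p := by rw [IsGalois.card_aut_eq_finrank, hrank]
  have : IsCyclic (E ≃ₐ[F] E) := isCyclic_of_prime_card hcard
  obtain ⟨σ, hσ⟩ := IsCyclic.exists_generator (α := E ≃ₐ[F] E)
  have hσp : σ ^ p = 1 := by rw [← hcard]; exact pow_card_eq_one'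
  set H : Subgroup Eˣ := (powMonoidHom p : Eˣ →* Eˣ).range with hH
  let s : Eˣ →* Eˣ := Units.map (σ : E →* E)
  have hs : ∀ x : Eˣ, ((s x : Eˣ) : E) = σ x := fun x => rfl
  let φ : Eˣ →* Eˣ := s / MonoidHom.id _
  have hφ : ∀ x : Eˣ, φ x = s x / x := fun x => rfl
  have hφE : ∀ x : Eˣ, ((φ x : Eˣ) : E) = σ x / x := by
    intro x
    rw [hφ, Units.val_div_eq_div_val, hs]
  -- nilpotence
  have hnil : ∀ x : Eˣ, φ^[p] x ∈ H := by
    intro x
    let S : AddMonoid.End (Additive Eˣ) := MonoidHom.toAdditive s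
    have hSx : ∀ y : Eˣ, S (Additive.ofMul y) = Additive.ofMul (s y) := fun y => rfl
    have hSk : ∀ k : ℕ, ∀ y : Eˣ, (S ^ k) (Additive.ofMul y) = Additive.ofMul (s^[k] y) := by
      intro k
      induction k with
      | zero => intro y; rfl
      | succ k ih =>
        intro y
        rw [pow_succ, Function.iterate_succ_apply, ← ih, ← hSx]
        rfl
    have hsk : ∀ k : ℕ, ∀ y : Eˣ, ((s^[k] y : Eˣ) : E) = (σ ^ k) y := by
      intro k
      induction k with
      | zero => intro y; rfl
      | succ k ih =>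
        intro y
        rw [Function.iterate_succ_apply, ih, hs, pow_succ, AlgEquiv.mul_apply]
    have hS1 : S ^ p = 1 := by
      ext y
      have h1 := hSk p y.toMul
      have h2 : s^[p] y.toMul = y.toMul := by
        ext
        rw [hsk, hσp, AlgEquiv.one_apply]
      rw [h2] at h1
      rw [show y = Additive.ofMul y.toMul from rfl, h1]
      rfl
    obtain ⟨r, hr⟩ := pow_sub_one (R := AddMonoid.End (Additive Eˣ)) hp hS1
    have hk : ∀ k : ℕ, ∀ y : Eˣ, ((S - 1) ^ k) (Additive.ofMul y) = Additive.ofMul (φ^[k] y) := by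
      intro k
      induction k with
      | zero => intro y; rfl
      | succ k ih =>
        intro y
        rw [pow_succ, Function.iterate_succ_apply, ← ih]
        rfl
    have h3 := hk p x
    rw [hr] at h3
    refine ⟨(r (Additive.ofMul x)).toMul, ?_⟩
    have h4 : (((p : ℕ) : AddMonoid.End (Additive Eˣ)) * r) (Additive.ofMul x) = p • (r (Additive.ofMul x)) := by
      show ((p : ℕ) : AddMonoid.End (Additive Eˣ)) (r (Additive.ofMul x)) = _
      rw [AddMonoid.End.natCast_apply]
    rw [h4] at h3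
    have h5 := congrArg Additive.toMul h3
    rw [toMul_nsmul] at h5
    exact h5
  refine index_of_nilp (φ := φ) ?_ hnil
  -- the fixed part
  let ι : Fˣ →* Eˣ := Units.map (algebraMap F E : F →* E)
  have hι : ∀ x : Fˣ, ((ι x : Eˣ) : E) = algebraMap F E x := fun x => rfl
  set B : Subgroup Eˣ := H ⊔ ι.range with hB
  have hHB : H.relIndex B ≠ 0 := by
    rw [hB, sup_comm, Subgroup.relIndex_sup_right]
    intro h
    have h1 : (H.comap ι).relIndex ⊤ = 0 := by
      rw [Subgroup.relIndex_comap, ← MonoidHom.range_eq_map]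
      exact h
    rw [Subgroup.relIndex_top_right] at h1
    apply hF
    have h2 : (powMonoidHom p : Fˣ →* Fˣ).range ≤ H.comap ι := by
      rintro _ ⟨f, rfl⟩
      exact ⟨ι f, by simp⟩
    exact Subgroup.index_eq_zero_of_relIndex_eq_zero (by
      rw [← Subgroup.relIndex_top_right] at h1
      exact Subgroup.relIndex_eq_zero_of_le_left h2 h1)
  refine Subgroup.relIndex_ne_zero_trans hHB ?_
  -- B in A1
  have hch : ∀ x : H.comap φ, ∃ y : Eˣ, y ^ p = φ x := by
    rintro ⟨x, hx⟩
    obtain ⟨y, hy⟩ := hx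
    exact ⟨y, hy⟩
  choose y hy using hch
  have hn0 : ∀ x : Eˣ, Algebra.norm F (x : E) ≠ 0 := by
    intro x
    rw [Algebra.norm_ne_zero_iff]
    exact x.ne_zero
  have hnφ : ∀ x : Eˣ, Algebra.norm F ((φ x : Eˣ) : E) = 1 := by
    intro x
    have h1 : Algebra.norm F (σ (x : E)) = Algebra.norm F (x : E) := Algebra.norm_eq_of_algEquiv σ x
    have h2 : ((φ x : Eˣ) : E) * x = σ x := by
      rw [hφE]
      exact div_mul_cancel₀ _ x.ne_zero
    have h3 := congrArg (Algebra.norm F) h2
    rw [map_mul, h1] at h3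
    exact mul_eq_right₀ (hn0 x) |>.1 h3
  have hfix : ∀ z : Eˣ, φ z = 1 → ∃ f : Fˣ, ι f = z := by
    intro z hz
    have h1 : σ (z : E) = z := by
      have h2 := hφE z
      rw [hz, Units.val_one] at h2
      rw [eq_comm, div_eq_one_iff_eq z.ne_zero] at h2
      exact h2
    have h3 : ∀ τ : E ≃ₐ[F] E, τ (z : E) = z := by
      intro τ
      have h4 : Subgroup.zpowers σ ≤ MulAction.stabilizer (E ≃ₐ[F] E) (z : E) := by
        rw [Subgroup.zpowers_le]
        exact h1
      exact h4 (hσ τ)
    have h5 : (z : E) ∈ (⊥ : IntermediateField F E) := by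
      rw [IsGalois.mem_bot_iff_fixed]
      exact h3
    rw [IntermediateField.mem_bot] at h5
    obtain ⟨f, hf⟩ := h5
    have hf0 : f ≠ 0 := by
      rintro rfl
      rw [map_zero] at hf
      exact z.ne_zero hf.symm
    refine ⟨Units.mk0 f hf0, ?_⟩
    ext
    rw [hι]
    exact hf
  have hmemB : ∀ (x w : Eˣ), φ x = w ^ p → Algebra.norm F (w : E) = 1 → x ∈ B := by
    intro x w hxw hw
    obtain ⟨v, hv⟩ := groupCohomology.exists_div_of_norm_eq_one hσ hw
    -- v / σ v = w
    have h1 : w = φ v⁻¹ := by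
      ext
      rw [← hv, hφE]
      rw [Units.val_inv_eq_inv_val, map_inv₀]
      have hv0 : (v : E) ≠ 0 := v.ne_zero
      have hσv0 : σ (v : E) ≠ 0 := by
        intro h
        exact hv0 ((map_eq_zero σ).1 h)
      field_simp
    have h2 : φ (x / (v⁻¹) ^ p) = 1 := by
      rw [map_div, map_pow, ← h1, hxw, div_self']
    obtain ⟨f, hf⟩ := hfix _ h2
    have h3 : x = (v⁻¹) ^ p * ι f := by
      rw [hf, mul_div_cancel]
    rw [h3, hB]
    exact Subgroup.mul_mem_sup ⟨v⁻¹, rfl⟩ ⟨f, rfl⟩
  have hfinroots : Finite {c : F // c ^ p = 1} := by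
    have h1 : {c : F | c ^ p = 1} ⊆ ((Polynomial.nthRoots p (1 : F)).toFinset : Set F) := by
      intro c hc
      simp only [Finset.mem_coe, Multiset.mem_toFinset]
      rw [Polynomial.mem_nthRoots hp.pos]
      exact hc
    exact (Finset.finite_toSet _).subset h1
  let c : H.comap φ → {c : F // c ^ p = 1} := fun x => ⟨Algebra.norm F ((y x : Eˣ) : E), by
    rw [← map_pow, ← Units.val_pow_eq_pow_val, hy]
    exact hnφ x⟩
  refine index_of_sep (B.subgroupOf (H.comap φ)) c ?_
  intro x x' hxx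
  rw [Subgroup.mem_subgroupOf]
  refine hmemB _ (y x / y x') ?_ ?_
  · rw [div_pow, hy, hy, Subgroup.coe_div, map_div]
  · have h1 : Algebra.norm F ((y x : Eˣ) : E) = Algebra.norm F ((y x' : Eˣ) : E) :=
      congrArg Subtype.val hxx
    have h2 : ((y x / y x' : Eˣ) : E) * (y x' : Eˣ) = (y x : Eˣ) := by
      rw [← Units.val_mul, div_mul_cancel]
    have h3 := congrArg (Algebra.norm F) h2
    rw [map_mul, h1] at h3
    exact mul_eq_right₀ (hn0 _) |>.1 h3

theorem t_FG : S_FG := by
  intro p _ F K _ _ _ hζ' hK hS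
  obtain ⟨ζ, hζ⟩ := hζ'
  obtain ⟨S, hS⟩ := hS
  classical
  have hp : p.Prime := Fact.out
  have := hK.gal
  have hroot : ∀ a : Fˣ, ∃ α : Kˣ, (α : K) ^ p = algebraMap F K (a : F) := by
    intro a
    obtain ⟨y, hy⟩ := hK.root (algebraMap F K (a : F))
    have hy0 : y ≠ 0 := by
      rintro rfl
      rw [zero_pow hp.ne_zero, eq_comm, map_eq_zero] at hy
      exact a.ne_zero hy
    exact ⟨Units.mk0 y hy0, hy⟩
  choose α hα using hroot
  have hfinroots : Finite {c : K // c ^ p = 1} := by
    have h1 : {c : K | c ^ p = 1} ⊆ ((Polynomial.nthRoots p (1 : K)).toFinset : Set K) := by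
      intro c hc
      simp only [Finset.mem_coe, Multiset.mem_toFinset]
      rw [Polynomial.mem_nthRoots hp.pos]
      exact hc
    exact (Finset.finite_toSet _).subset h1
  let f : Fˣ → (S → {c : K // c ^ p = 1}) := fun a σ =>
    ⟨(σ : K ≃ₐ[F] K) (α a) / (α a), by
      rw [div_pow, ← map_pow, hα, AlgEquiv.commutes]
      exact div_self (by
        rw [Ne, map_eq_zero]
        exact a.ne_zero)⟩
  refine index_of_sep _ f ?_
  intro a b hab
  set β : K := (α a : K) / (α b : K) with hβ
  have hβp : β ^ p = algebraMap F K ((a / b : Fˣ) : F) := by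
    rw [hβ, div_pow, hα, hα, Units.val_div_eq_div_val, map_div₀]
  have hfixS : ∀ σ ∈ S, σ β = β := by
    intro σ hσ
    have h1 := congrFun hab ⟨σ, hσ⟩
    have h2 : σ (α a) / (α a : K) = σ (α b) / (α b : K) := congrArg Subtype.val h1
    rw [hβ, map_div₀]
    have ha0 : (α a : K) ≠ 0 := (α a).ne_zero
    have hb0 : (α b : K) ≠ 0 := (α b).ne_zero
    have hsb0 : σ (α b : K) ≠ 0 := by
      rw [Ne, map_eq_zero]
      exact hb0
    rw [div_eq_div_iff ha0 hb0] at h2
    rw [div_eq_div_iff hsb0 hb0]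
    linear_combination h2
  have hint : IsIntegral F β := Algebra.IsIntegral.isIntegral β
  have : FiniteDimensional F (IntermediateField.adjoin F {β}) :=
    IntermediateField.adjoin.finiteDimensional hint
  let St : Subgroup (K ≃ₐ[F] K) := MulAction.stabilizer (K ≃ₐ[F] K) β
  have hStopen : IsOpen (St : Set (K ≃ₐ[F] K)) := by
    refine Subgroup.isOpen_mono (H₁ := (IntermediateField.adjoin F {β}).fixingSubgroup) ?_
      (IntermediateField.fixingSubgroup_isOpen _)
    intro σ hσ
    rw [IntermediateField.mem_fixingSubgroup_iff] at hσ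
    exact hσ β (IntermediateField.mem_adjoin_simple_self F β)
  have hStclosed : IsClosed (St : Set (K ≃ₐ[F] K)) := Subgroup.isClosed_of_isOpen _ hStopen
  have hcl : (Subgroup.closure (S : Set (K ≃ₐ[F] K)) : Set (K ≃ₐ[F] K)) ⊆ St := by
    have : Subgroup.closure (S : Set (K ≃ₐ[F] K)) ≤ St := by
      rw [Subgroup.closure_le]
      intro σ hσ
      exact hfixS σ hσ
    exact this
  have huniv : ∀ σ : K ≃ₐ[F] K, σ β = β := by
    intro σ
    have h1 : σ ∈ closure (Subgroup.closure (S : Set (K ≃ₐ[F] K)) : Set (K ≃ₐ[F] K)) := hS σ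
    have h2 := closure_minimal hcl hStclosed h1
    exact h2
  have hbot : β ∈ (⊥ : IntermediateField F K) := by
    rw [InfiniteGalois.mem_bot_iff_fixed]
    exact huniv
  rw [IntermediateField.mem_bot] at hbot
  obtain ⟨g, hg⟩ := hbot
  have hg0 : g ≠ 0 := by
    rintro rfl
    rw [map_zero] at hg
    rw [← hg, zero_pow hp.ne_zero, eq_comm, map_eq_zero] at hβp
    exact (a / b).ne_zero hβp
  refine ⟨Units.mk0 g hg0, ?_⟩
  ext
  apply (algebraMap F K).injective
  rw [← hβp, ← hg]
  simp

end Pool.Agent.Helper26.ET
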